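import Pool.Agent.UL7.Stmts

/-!
# Squad UL7 (MP_c7c9bf_co), row BDP: the boundary curve of a symmetric planar body
-/

set_option autoImplicit false

namespace Pool.Agent.UL7.H88

open Set Pool.Agent.UL3 Pool.Agent.UL7
open scoped Topology

/-- the unit vector in the direction `φ` -/
noncomputable def ev (φ : ℝ) : ℝ × ℝ := (Real.cos φ, Real.sin φ)

theorem ev_ne (φ : ℝ) : ev φ ≠ 0 := by
  intro h
  have h1 : Real.cos φ = 0 := congrArg Prod.fst h
  have h2 : Real.sin φ = 0 := congrArg Prod.snd h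
  have h3 := Real.sin_sq_add_cos_sq φ
  rw [h1, h2] at h3
  norm_num at h3

theorem ev_continuous : Continuous ev := by
  unfold ev
  fun_prop

theorem ev_pi (φ : ℝ) : ev (φ + Real.pi) = -ev φ := by
  unfold ev
  rw [Real.cos_add_pi, Real.sin_add_pi]
  rfl

theorem polar (x : ℝ × ℝ) : ∃ φ s : ℝ, 0 ≤ s ∧ x = s • ev φ := by
  obtain ⟨a, b⟩ := x
  refine ⟨Complex.arg ⟨a, b⟩, ‖(⟨a, b⟩ : ℂ)‖, norm_nonneg _, ?_⟩
  have h1 := Complex.norm_mul_cos_arg ⟨a, b⟩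
  have h2 := Complex.norm_mul_sin_arg ⟨a, b⟩
  unfold ev
  rw [Prod.smul_mk, smul_eq_mul, smul_eq_mul, h1, h2]

theorem bdp : BdpStmt := by
  intro M hM
  have h0 : M ∈ 𝓝 (0 : ℝ × ℝ) := mem_interior_iff_mem_nhds.1 hM.zero_mem
  have hb : Bornology.IsVonNBounded ℝ M :=
    (NormedSpace.isVonNBounded_iff ℝ).2 hM.cpt.isBounded
  have ha : Absorbent ℝ M := absorbent_nhds_zero h0
  have hg : Continuous (gauge M) := continuous_gauge hM.cvx h0
  have hpos : ∀ φ, 0 < gauge M (ev φ) := fun φ => (gauge_pos ha hb).2 (ev_ne φ)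
  have hmul : ∀ (s : ℝ) (x : ℝ × ℝ), 0 ≤ s → gauge M (s • x) = s * gauge M x := by
    intro s x hs
    rw [gauge_smul_of_nonneg hs, smul_eq_mul]
  have h1 : ∀ φ, gauge M ((gauge M (ev φ))⁻¹ • ev φ) = 1 := by
    intro φ
    rw [hmul _ _ (inv_nonneg.2 (hpos φ).le), inv_mul_cancel₀ (hpos φ).ne']
  refine ⟨fun φ => (gauge M (ev φ))⁻¹ • ev φ, ?_, ?_, ?_, ?_, ?_, ?_⟩
  · exact ((hg.comp ev_continuous).inv₀ (fun φ => (hpos φ).ne')).smul ev_continuous
  · intro φ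
    have h2 := (gauge_le_one_iff_mem_closure hM.cvx h0).1 (h1 φ).le
    rwa [hM.cpt.isClosed.closure_eq] at h2
  · intro φ h2
    have h3 := (gauge_lt_one_iff_mem_interior hM.cvx h0).2 h2
    rw [h1 φ] at h3
    exact lt_irrefl _ h3
  · intro φ
    show (gauge M (ev (φ + Real.pi)))⁻¹ • ev (φ + Real.pi) = -((gauge M (ev φ))⁻¹ • ev φ)
    rw [ev_pi, gauge_neg hM.sym, smul_neg]
  · intro φ
    exact ⟨(gauge M (ev φ))⁻¹, inv_pos.2 (hpos φ), rfl⟩
  · intro x hx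
    obtain ⟨φ, s, hs, rfl⟩ := polar x
    refine ⟨φ, s * gauge M (ev φ), mul_nonneg hs (hpos φ).le, ?_, ?_⟩
    · rw [← hmul s _ hs]
      exact gauge_le_one_of_mem hx
    · show s • ev φ = (s * gauge M (ev φ)) • ((gauge M (ev φ))⁻¹ • ev φ)
      rw [smul_smul, mul_assoc, mul_inv_cancel₀ (hpos φ).ne', mul_one]

end Pool.Agent.UL7.H88
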